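import Pool.Agent.QStar27.Basic

/-!
Band separators and the separator theorem for random separations.
-/

open Finset

namespace QStar27

variable {V : Type*} [Fintype V] [DecidableEq V]

/-- There is a band separator of independence number at most n between the level sets
(b less than x) and (y at most a). -/
def Band (G : SimpleGraph V) (a b : V → ℝ) (x y n : ℝ) : Prop :=
  ∃ T U : Finset V, (al G T : ℝ) ≤ n ∧ (∀ v ∈ T, a v < y ∧ x ≤ b v) ∧
    (∀ v, b v < x → v ∈ U) ∧ (∀ v ∈ U, a v < y) ∧ Disjoint U T ∧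
    (∀ u ∈ U, ∀ v, G.Adj u v → v ∈ U ∨ v ∈ T)

theorem Band.mono {G : SimpleGraph V} {a b : V → ℝ} {x y n n' : ℝ} (h : Band G a b x y n)
    (hn : n ≤ n') : Band G a b x y n' := by
  obtain ⟨T, U, h1, h2⟩ := h
  exact ⟨T, U, h1.trans hn, h2⟩

theorem band_base {G : SimpleGraph V} {a b : V → ℝ} (hab : ∀ v, a v ≤ b v)
    (hadj : ∀ u v, G.Adj u v → a v ≤ b u) {x y : ℝ} (hxy : x < y) :
    Band G a b x y (Fintype.card V) := by
  classical
  refine ⟨Finset.univ.filter (fun v => a v < x ∧ x ≤ b v), Finset.univ.filter (fun v => b v < x),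
    ?_, ?_, ?_, ?_, ?_, ?_⟩
  · exact_mod_cast al_le_card _
  · intro v hv
    simp only [Finset.mem_filter, Finset.mem_univ, true_and] at hv
    exact ⟨hv.1.trans hxy, hv.2⟩
  · intro v hv
    simp [hv]
  · intro v hv
    simp only [Finset.mem_filter, Finset.mem_univ, true_and] at hv
    exact (hab v).trans_lt (hv.trans hxy)
  · rw [Finset.disjoint_left]
    intro v hv hv2
    simp only [Finset.mem_filter, Finset.mem_univ, true_and] at hv hv2
    linarith [hv2.2]
  · intro u hu v huv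
    simp only [Finset.mem_filter, Finset.mem_univ, true_and] at hu ⊢
    have h1 := hadj u v huv
    by_cases hv : b v < x
    · exact Or.inl hv
    · exact Or.inr ⟨by linarith, not_lt.mp hv⟩

section Step

variable {Θ : Type*} [Fintype Θ] {w : Θ → ℝ} {A B : Θ → Finset V} {G : SimpleGraph V}

/-- Marginal of A. -/
noncomputable def mg (w : Θ → ℝ) (A : Θ → Finset V) (v : V) : ℝ := pr w (fun θ => v ∈ A θ)

theorem al_list_le {A B : Θ → Finset V} {k : ℝ} (hk : ∀ θ, (al G (B θ \ A θ) : ℝ) ≤ k)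
    (l : List Θ) (D : Finset V)
    (hD : ∀ v ∈ D, ∃ θ ∈ l, v ∈ B θ ∧ v ∉ A θ) : (al G D : ℝ) ≤ l.length * k := by
  classical
  induction l generalizing D with
  | nil =>
    have : D = ∅ := by
      rw [Finset.eq_empty_iff_forall_notMem]
      intro v hv
      obtain ⟨θ, hθ, _⟩ := hD v hv
      simp at hθ
    subst this
    have h0 : al G (∅ : Finset V) = 0 := by
      apply Nat.le_zero.mp
      refine al_le fun I hI _ => ?_
      rw [Finset.subset_empty.mp hI]
      simp
    simp [h0]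
  | cons θ l ih =>
    have h1 : D ⊆ (B θ \ A θ) ∪ (D \ (B θ \ A θ)) := by
      intro v hv
      by_cases h : v ∈ B θ \ A θ
      · exact Finset.mem_union_left _ h
      · exact Finset.mem_union_right _ (Finset.mem_sdiff.mpr ⟨hv, h⟩)
    have h2 : (al G (D \ (B θ \ A θ)) : ℝ) ≤ l.length * k := by
      refine ih _ fun v hv => ?_
      obtain ⟨hvD, hvn⟩ := Finset.mem_sdiff.mp hv
      obtain ⟨θ', hθ', hB, hA⟩ := hD v hvD
      rcases List.mem_cons.mp hθ' with h | h
      · subst h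
        exact absurd (Finset.mem_sdiff.mpr ⟨hB, hA⟩) hvn
      · exact ⟨θ', h, hB, hA⟩
    have h3 : (al G D : ℝ) ≤ al G (B θ \ A θ) + al G (D \ (B θ \ A θ)) := by
      exact_mod_cast (al_mono h1).trans (al_union_le _ _)
    have h4 := hk θ
    push_cast [List.length_cons]
    linarith

theorem band_step (hw0 : ∀ θ, 0 ≤ w θ) (hw1 : ∑ θ, w θ = 1) (hAB : ∀ θ, A θ ⊆ B θ)
    (hsep : ∀ θ u v, G.Adj u v → u ∈ A θ → v ∈ B θ) {k : ℝ}
    (hk : ∀ θ, (al G (B θ \ A θ) : ℝ) ≤ k) {x g n₁ n₂ : ℝ} (hg : 0 < g) {r : ℕ} (hr : 0 < r)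
    (h1 : Band G (mg w A) (mg w B) x (x + g / 3) n₁)
    (h2 : Band G (mg w A) (mg w B) (x + 2 * g / 3) (x + g) n₂) :
    Band G (mg w A) (mg w B) x (x + g) (3 * r * k + 9 / (r * g ^ 2) * (n₁ + n₂)) := by
  classical
  obtain ⟨T₁, U₁, hT₁, hT₁b, hU₁L, hU₁H, hd₁, hc₁⟩ := h1
  obtain ⟨T₂, U₂, hT₂, hT₂b, hU₂L, hU₂H, hd₂, hc₂⟩ := h2
  have hr' : (0 : ℝ) < r := by exact_mod_cast hr
  set μ : ℝ := r * (x + g / 2) with hμ
  obtain ⟨I₁, hI₁T, hI₁, hI₁c⟩ := exists_al (G := G) T₁
  obtain ⟨I₂, hI₂T, hI₂, hI₂c⟩ := exists_al (G := G) T₂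
  -- the random sets
  set C : List Θ → Finset V := fun l =>
    Finset.univ.filter (fun v => μ ≤ (cnt (fun θ => v ∈ A θ) l : ℝ)) with hC
  set E : List Θ → Finset V := fun l =>
    Finset.univ.filter (fun v => (cnt (fun θ => v ∈ B θ) l : ℝ) < μ) with hE
  set D : List Θ → Finset V := fun l =>
    Finset.univ.filter (fun v => (cnt (fun θ => v ∈ A θ) l : ℝ) < μ ∧
      μ ≤ (cnt (fun θ => v ∈ B θ) l : ℝ)) with hD
  have hs : (0 : ℝ) < r * g / 6 := by positivity
  have hδ : (r : ℝ) / (4 * (r * g / 6) ^ 2) = 9 / (r * g ^ 2) := by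
    field_simp
    ring
  -- expectation of the first cost
  have hE1 : Ex w r (fun l => ((I₁ ∩ C l).card : ℝ)) ≤ 9 / (r * g ^ 2) * n₁ := by
    have hcard : (fun l => ((I₁ ∩ C l).card : ℝ)) = fun l => ∑ v ∈ I₁,
        (if μ ≤ (cnt (fun θ => v ∈ A θ) l : ℝ) then (1 : ℝ) else 0) := by
      funext l
      rw [← Finset.sum_filter, Finset.sum_const, nsmul_eq_mul, mul_one]
      congr 2
      ext v
      simp [hC]
    rw [hcard, Ex_sum]
    calc ∑ v ∈ I₁, Ex w r (fun l => if μ ≤ (cnt (fun θ => v ∈ A θ) l : ℝ) then (1 : ℝ) else 0)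
        ≤ ∑ v ∈ I₁, 9 / (r * g ^ 2) := by
          refine Finset.sum_le_sum fun v hv => ?_
          rw [← hδ]
          refine cheb_upper hw0 hw1 _ r μ _ hs ?_
          have hav : mg w A v < x + g / 3 := (hT₁b v (hI₁T hv)).1
          have h3 : (r : ℝ) * mg w A v ≤ r * (x + g / 3) :=
            mul_le_mul_of_nonneg_left hav.le hr'.le
          have h4 : mg w A v = pr w (fun θ => v ∈ A θ) := rfl
          rw [← h4, hμ]
          nlinarith
      _ = (I₁.card : ℝ) * (9 / (r * g ^ 2)) := by rw [Finset.sum_const, nsmul_eq_mul]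
      _ ≤ n₁ * (9 / (r * g ^ 2)) := by
          refine mul_le_mul_of_nonneg_right ?_ (by positivity)
          rw [hI₁c]
          exact hT₁
      _ = _ := by ring
  have hE2 : Ex w r (fun l => ((I₂ ∩ E l).card : ℝ)) ≤ 9 / (r * g ^ 2) * n₂ := by
    have hcard : (fun l => ((I₂ ∩ E l).card : ℝ)) = fun l => ∑ v ∈ I₂,
        (if (cnt (fun θ => v ∈ B θ) l : ℝ) < μ then (1 : ℝ) else 0) := by
      funext l
      rw [← Finset.sum_filter, Finset.sum_const, nsmul_eq_mul, mul_one]
      congr 2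
      ext v
      simp [hE]
    rw [hcard, Ex_sum]
    calc ∑ v ∈ I₂, Ex w r (fun l => if (cnt (fun θ => v ∈ B θ) l : ℝ) < μ then (1 : ℝ) else 0)
        ≤ ∑ v ∈ I₂, 9 / (r * g ^ 2) := by
          refine Finset.sum_le_sum fun v hv => ?_
          rw [← hδ]
          refine cheb_lower hw0 hw1 _ r μ _ hs ?_
          have hav : x + 2 * g / 3 ≤ mg w B v := (hT₂b v (hI₂T hv)).2
          have h3 : (r : ℝ) * (x + 2 * g / 3) ≤ r * mg w B v :=
            mul_le_mul_of_nonneg_left hav hr'.le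
          have h4 : mg w B v = pr w (fun θ => v ∈ B θ) := rfl
          rw [← h4, hμ]
          nlinarith
      _ = (I₂.card : ℝ) * (9 / (r * g ^ 2)) := by rw [Finset.sum_const, nsmul_eq_mul]
      _ ≤ n₂ * (9 / (r * g ^ 2)) := by
          refine mul_le_mul_of_nonneg_right ?_ (by positivity)
          rw [hI₂c]
          exact hT₂
      _ = _ := by ring
  obtain ⟨l, hlr, hl⟩ := exists_le_Ex hw0 hw1 r
    (fun l => ((I₁ ∩ C l).card : ℝ) + ((I₂ ∩ E l).card : ℝ))
  rw [Ex_add] at hl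
  -- facts about the chosen sample
  have hle : ∀ v, cnt (fun θ => v ∈ A θ) l ≤ cnt (fun θ => v ∈ B θ) l := by
    intro v
    unfold cnt
    refine List.Sublist.length_le ?_
    refine List.monotone_filter_right l ?_
    intro θ hθ
    simp only [decide_eq_true_eq] at hθ ⊢
    exact hAB θ hθ
  have hadjcnt : ∀ u v, G.Adj u v → cnt (fun θ => u ∈ A θ) l ≤ cnt (fun θ => v ∈ B θ) l := by
    intro u v huv
    unfold cnt
    refine List.Sublist.length_le ?_
    refine List.monotone_filter_right l ?_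
    intro θ hθ
    simp only [decide_eq_true_eq] at hθ ⊢
    exact hsep θ u v huv hθ
  have hcov : ∀ v, v ∈ C l ∨ v ∈ E l ∨ v ∈ D l := by
    intro v
    simp only [hC, hE, hD, Finset.mem_filter, Finset.mem_univ, true_and]
    by_cases h1 : μ ≤ (cnt (fun θ => v ∈ A θ) l : ℝ)
    · exact Or.inl h1
    · by_cases h2 : (cnt (fun θ => v ∈ B θ) l : ℝ) < μ
      · exact Or.inr (Or.inl h2)
      · exact Or.inr (Or.inr ⟨not_le.mp h1, not_lt.mp h2⟩)
  have hCE : ∀ u ∈ C l, ∀ v ∈ E l, ¬ G.Adj u v ∧ u ≠ v := by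
    intro u hu v hv
    simp only [hC, hE, Finset.mem_filter, Finset.mem_univ, true_and] at hu hv
    constructor
    · intro huv
      have : (cnt (fun θ => u ∈ A θ) l : ℝ) ≤ cnt (fun θ => v ∈ B θ) l := by
        exact_mod_cast hadjcnt u v huv
      linarith
    · rintro rfl
      have : (cnt (fun θ => u ∈ A θ) l : ℝ) ≤ cnt (fun θ => u ∈ B θ) l := by
        exact_mod_cast hle u
      linarith
  have hEC : ∀ u ∈ E l, ∀ v ∈ C l, ¬ G.Adj u v ∧ u ≠ v := fun u hu v hv =>
    ⟨fun h => (hCE v hv u hu).1 h.symm, fun h => (hCE v hv u hu).2 h.symm⟩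
  have hDk : ∀ D' ⊆ D l, (al G D' : ℝ) ≤ r * k := by
    intro D' hD'
    rw [← hlr]
    refine al_list_le hk l D' fun v hv => ?_
    have hvD := hD' hv
    simp only [hD, Finset.mem_filter, Finset.mem_univ, true_and] at hvD
    by_contra hcon
    push Not at hcon
    have hBA : cnt (fun θ => v ∈ B θ) l ≤ cnt (fun θ => v ∈ A θ) l := by
      unfold cnt
      refine le_of_eq ?_
      congr 1
      refine List.filter_congr fun θ hθ => ?_
      by_cases h : v ∈ B θ
      · simp [h, hcon θ hθ h]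
      · have : v ∉ A θ := fun h' => h (hAB θ h')
        simp [h, this]
    have : (cnt (fun θ => v ∈ B θ) l : ℝ) ≤ cnt (fun θ => v ∈ A θ) l := by exact_mod_cast hBA
    linarith [hvD.1, hvD.2]
  -- the costs
  have hcost1 : (al G (T₁ ∩ C l) : ℝ) ≤ (I₁ ∩ C l).card + r * k := by
    have h3 := al_exchange hI₁T hI₁ hI₁c hcov hCE
    have h4 : (I₁ ∩ D l).card ≤ al G (D l) := le_al Finset.inter_subset_right
      (indep_mono Finset.inter_subset_left hI₁)
    have h5 := hDk (D l) (Finset.Subset.refl _)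
    have h6 : (al G (T₁ ∩ C l) : ℝ) ≤ (I₁ ∩ C l).card + (I₁ ∩ D l).card := by exact_mod_cast h3
    have h7 : ((I₁ ∩ D l).card : ℝ) ≤ al G (D l) := by exact_mod_cast h4
    linarith
  have hcost2 : (al G (T₂ ∩ E l) : ℝ) ≤ (I₂ ∩ E l).card + r * k := by
    have hcov' : ∀ v, v ∈ E l ∨ v ∈ C l ∨ v ∈ D l := by
      intro v
      rcases hcov v with h | h | h
      · exact Or.inr (Or.inl h)
      · exact Or.inl h
      · exact Or.inr (Or.inr h)
    have h3 := al_exchange hI₂T hI₂ hI₂c hcov' hEC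
    have h4 : (I₂ ∩ D l).card ≤ al G (D l) := le_al Finset.inter_subset_right
      (indep_mono Finset.inter_subset_left hI₂)
    have h5 := hDk (D l) (Finset.Subset.refl _)
    have h6 : (al G (T₂ ∩ E l) : ℝ) ≤ (I₂ ∩ E l).card + (I₂ ∩ D l).card := by exact_mod_cast h3
    have h7 : ((I₂ ∩ D l).card : ℝ) ≤ al G (D l) := by exact_mod_cast h4
    linarith
  -- the new band separator
  set M : Finset V := Finset.univ.filter (fun v => mg w A v < x + g ∧ x ≤ mg w B v) with hM
  set T : Finset V := ((T₁ ∩ C l) ∪ (T₂ ∩ E l)) ∪ (D l ∩ M) with hT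
  set U : Finset V := Finset.univ.filter (fun v => mg w B v < x ∨
    (v ∈ M ∧ v ∉ T ∧ ((v ∈ C l ∧ v ∈ U₁) ∨ (v ∈ E l ∧ v ∈ U₂)))) with hU
  have hab : ∀ v, mg w A v ≤ mg w B v := fun v => pr_mono hw0 fun θ h => hAB θ h
  have hadj : ∀ u v, G.Adj u v → mg w A v ≤ mg w B u := fun u v huv =>
    pr_mono hw0 fun θ h => hsep θ v u huv.symm h
  have hTM : ∀ v ∈ T, mg w A v < x + g ∧ x ≤ mg w B v := by
    intro v hv
    rw [hT, Finset.mem_union, Finset.mem_union] at hv
    rcases hv with (hv | hv) | hv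
    · have := hT₁b v (Finset.mem_inter.mp hv).1
      exact ⟨by linarith [this.1], this.2⟩
    · have := hT₂b v (Finset.mem_inter.mp hv).1
      exact ⟨this.1, by linarith [this.2]⟩
    · have := (Finset.mem_inter.mp hv).2
      rw [hM, Finset.mem_filter] at this
      exact this.2
  refine ⟨T, U, ?_, hTM, ?_, ?_, ?_, ?_⟩
  · have h3 : (al G T : ℝ) ≤ al G (T₁ ∩ C l) + al G (T₂ ∩ E l) + al G (D l ∩ M) := by
      have := al_union_le (G := G) ((T₁ ∩ C l) ∪ (T₂ ∩ E l)) (D l ∩ M)
      have h' := al_union_le (G := G) (T₁ ∩ C l) (T₂ ∩ E l)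
      have : al G T ≤ al G (T₁ ∩ C l) + al G (T₂ ∩ E l) + al G (D l ∩ M) := by
        rw [hT]
        omega
      exact_mod_cast this
    have h4 := hDk (D l ∩ M) Finset.inter_subset_left
    have h5 : ((I₁ ∩ C l).card : ℝ) + ((I₂ ∩ E l).card : ℝ)
        ≤ 9 / (r * g ^ 2) * n₁ + 9 / (r * g ^ 2) * n₂ := hl.trans (add_le_add hE1 hE2)
    rw [mul_add]
    linarith
  · intro v hv
    simp [hU, hv]
  · intro v hv
    rw [hU, Finset.mem_filter] at hv
    rcases hv.2 with h | h
    · exact (hab v).trans_lt (by linarith)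
    · have := h.1
      rw [hM, Finset.mem_filter] at this
      exact this.2.1
  · rw [Finset.disjoint_left]
    intro v hv hvT
    rw [hU, Finset.mem_filter] at hv
    rcases hv.2 with h | h
    · exact absurd (hTM v hvT).2 (not_le.mpr h)
    · exact h.2.1 hvT
  · intro u hu v huv
    by_cases hvT : v ∈ T
    · exact Or.inr hvT
    left
    rw [hU, Finset.mem_filter]
    refine ⟨Finset.mem_univ _, ?_⟩
    by_cases hvL : mg w B v < x
    · exact Or.inl hvL
    right
    -- v is not in the high level set, and in the right side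
    have key : mg w A v < x + g ∧ (v ∈ C l → v ∉ T₁ → v ∈ U₁ ∨ v ∈ E l) ∧
        (v ∈ E l → v ∉ T₂ → v ∈ U₂ ∨ v ∈ C l) := by
      rw [hU, Finset.mem_filter] at hu
      rcases hu.2 with h | ⟨_, _, ⟨hC', hU'⟩ | ⟨hE', hU'⟩⟩
      · have hu1 : u ∈ U₁ := hU₁L u h
        have hu2 : u ∈ U₂ := hU₂L u (by linarith)
        refine ⟨by linarith [hadj u v huv], ?_, ?_⟩
        · intro _ hvT₁
          rcases hc₁ u hu1 v huv with h' | h'
          · exact Or.inl h'
          · exact absurd h' hvT₁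
        · intro _ hvT₂
          rcases hc₂ u hu2 v huv with h' | h'
          · exact Or.inl h'
          · exact absurd h' hvT₂
      · refine ⟨?_, ?_, ?_⟩
        · rcases hc₁ u hU' v huv with h' | h'
          · linarith [hU₁H v h']
          · linarith [(hT₁b v h').1]
        · intro _ hvT₁
          rcases hc₁ u hU' v huv with h' | h'
          · exact Or.inl h'
          · exact absurd h' hvT₁
        · intro hvE
          exact absurd huv (hCE u hC' v hvE).1
      · refine ⟨?_, ?_, ?_⟩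
        · rcases hc₂ u hU' v huv with h' | h'
          · exact hU₂H v h'
          · exact (hT₂b v h').1
        · intro hvC
          exact absurd huv (hEC u hE' v hvC).1
        · intro _ hvT₂
          rcases hc₂ u hU' v huv with h' | h'
          · exact Or.inl h'
          · exact absurd h' hvT₂
    have hvM : v ∈ M := by
      rw [hM, Finset.mem_filter]
      exact ⟨Finset.mem_univ _, key.1, not_lt.mp hvL⟩
    refine ⟨hvM, hvT, ?_⟩
    rcases hcov v with h | h | h
    · left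
      refine ⟨h, ?_⟩
      have hvT₁ : v ∉ T₁ := fun h' => hvT (by
        rw [hT]
        exact Finset.mem_union_left _ (Finset.mem_union_left _ (Finset.mem_inter.mpr ⟨h', h⟩)))
      rcases key.2.1 h hvT₁ with h' | h'
      · exact h'
      · exact absurd rfl (hCE v h v h').2
    · right
      refine ⟨h, ?_⟩
      have hvT₂ : v ∉ T₂ := fun h' => hvT (by
        rw [hT]
        exact Finset.mem_union_left _ (Finset.mem_union_right _ (Finset.mem_inter.mpr ⟨h', h⟩)))
      rcases key.2.2 h hvT₂ with h' | h'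
      · exact h'
      · exact absurd rfl (hCE v h' v h).2
    · exact absurd (by
        rw [hT]
        exact Finset.mem_union_right _ (Finset.mem_inter.mpr ⟨h, hvM⟩)) hvT

/-- The recursion over the scales. -/
theorem band_all (hw0 : ∀ θ, 0 ≤ w θ) (hw1 : ∑ θ, w θ = 1) (hAB : ∀ θ, A θ ⊆ B θ)
    (hsep : ∀ θ u v, G.Adj u v → u ∈ A θ → v ∈ B θ) {k : ℝ} (hk1 : 1 ≤ k)
    (hk : ∀ θ, (al G (B θ \ A θ) : ℝ) ≤ k) (K : ℕ) (hK : 0 < K) :
    ∀ x : ℝ, Band G (mg w A) (mg w B) x (x + 1 / K) (1944 * K ^ 2 * k) := by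
  have hK' : (0 : ℝ) < K := by exact_mod_cast hK
  obtain ⟨N, hN⟩ : ∃ N : ℕ, (Fintype.card V : ℝ) ≤ 9 ^ N := by
    obtain ⟨N, hN⟩ := pow_unbounded_of_one_lt (Fintype.card V : ℝ) (by norm_num : (1 : ℝ) < 9)
    exact ⟨N, hN.le⟩
  have hK1 : (1 : ℝ) ≤ K := by exact_mod_cast hK
  have main : ∀ d : ℕ, d ≤ N → ∀ x : ℝ,
      Band G (mg w A) (mg w B) x (x + 1 / (K * 3 ^ (N - d))) (1944 * K ^ 2 * 9 ^ (N - d) * k) := by
    intro d
    induction d with
    | zero =>
      intro _ x
      have hab : ∀ v, mg w A v ≤ mg w B v := fun v => pr_mono hw0 fun θ h => hAB θ h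
      have hadj : ∀ u v, G.Adj u v → mg w A v ≤ mg w B u := fun u v huv =>
        pr_mono hw0 fun θ h => hsep θ v u huv.symm h
      refine (band_base hab hadj (by
        have : (0 : ℝ) < 1 / (K * 3 ^ (N - 0)) := by positivity
        linarith)).mono ?_
      rw [Nat.sub_zero]
      have h9 : (0 : ℝ) ≤ 9 ^ N := by positivity
      have hK2 : (1 : ℝ) ≤ (K : ℝ) ^ 2 := one_le_pow₀ hK1
      calc (Fintype.card V : ℝ) ≤ 9 ^ N := hN
        _ = 1 * 1 * 9 ^ N * 1 := by ring
        _ ≤ 1944 * K ^ 2 * 9 ^ N * k := by gcongr; norm_num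
    | succ d ih =>
      intro hd x
      have hd' : d ≤ N := by omega
      have hNd : N - d = (N - (d + 1)) + 1 := by omega
      set j := N - (d + 1) with hj
      have ih' := ih hd'
      rw [hNd] at ih'
      have hg : (0 : ℝ) < 1 / (K * 3 ^ j) := by positivity
      have hr : 0 < 324 * K ^ 2 * 9 ^ j := by positivity
      have e1 : x + 1 / (K * 3 ^ (j + 1)) = x + 1 / (K * 3 ^ j) / 3 := by
        rw [pow_succ]
        field_simp
      have e2 : x + 2 * (1 / ((K : ℝ) * 3 ^ j)) / 3 + 1 / (K * 3 ^ (j + 1))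
          = x + 1 / (K * 3 ^ j) := by
        rw [pow_succ]
        field_simp
        ring
      have b1 := ih' x
      have b2 := ih' (x + 2 * (1 / ((K : ℝ) * 3 ^ j)) / 3)
      rw [e1] at b1
      rw [e2] at b2
      refine (band_step hw0 hw1 hAB hsep hk hg hr b1 b2).mono ?_
      have h93 : ((3 : ℝ) ^ j) ^ 2 = 9 ^ j := by
        rw [← pow_mul, mul_comm, pow_mul]
        norm_num
      have h9 : (0 : ℝ) < 9 ^ j := by positivity
      have e3 : (9 : ℝ) / (((324 * K ^ 2 * 9 ^ j : ℕ) : ℝ) * (1 / (K * 3 ^ j)) ^ 2) = 1 / 36 := by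
        push_cast
        rw [div_pow, one_pow, mul_pow, h93]
        field_simp
        norm_num
      rw [e3]
      push_cast
      rw [pow_succ]
      apply le_of_eq
      ring
  intro x
  have := main N le_rfl x
  simpa using this

/-- The separator theorem, band form: for real numbers x and K there is a set T contained in
the band, of independence number at most 1944 K^2 k, which separates (b less than x) from
(x + 1/K at most a). -/
theorem band_theorem (hw0 : ∀ θ, 0 ≤ w θ) (hw1 : ∑ θ, w θ = 1) (hAB : ∀ θ, A θ ⊆ B θ)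
    (hsep : ∀ θ u v, G.Adj u v → u ∈ A θ → v ∈ B θ) {k : ℝ} (hk1 : 1 ≤ k)
    (hk : ∀ θ, (al G (B θ \ A θ) : ℝ) ≤ k) (K : ℕ) (hK : 0 < K) (x : ℝ) :
    ∃ T U : Finset V, (al G T : ℝ) ≤ 1944 * K ^ 2 * k ∧
      (∀ v ∈ T, mg w A v < x + 1 / K ∧ x ≤ mg w B v) ∧
      (∀ v, mg w B v < x → v ∈ U) ∧ (∀ v ∈ U, mg w A v < x + 1 / K) ∧ Disjoint U T ∧
      (∀ u ∈ U, ∀ v, G.Adj u v → v ∈ U ∨ v ∈ T) :=
  band_all hw0 hw1 hAB hsep hk1 hk K hK x

/-- Vertices lying often in the boundary have small independence number. -/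
theorem heavy_le (hw0 : ∀ θ, 0 ≤ w θ) (hw1 : ∑ θ, w θ = 1) (hAB : ∀ θ, A θ ⊆ B θ) {k : ℝ}
    (hk : ∀ θ, (al G (B θ \ A θ) : ℝ) ≤ k) {q : ℝ} (hq : 0 < q) (T : Finset V)
    (hT : ∀ v ∈ T, q ≤ mg w B v - mg w A v) : (al G T : ℝ) ≤ k / q := by
  classical
  obtain ⟨I, hIT, hI, hIc⟩ := exists_al (G := G) T
  rw [← hIc, le_div_iff₀ hq]
  have h1 : ∀ v, mg w B v - mg w A v = ∑ θ, (if v ∈ B θ \ A θ then w θ else 0) := by
    intro v
    unfold mg pr
    rw [← Finset.sum_sub_distrib]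
    refine Finset.sum_congr rfl fun θ _ => ?_
    by_cases hA : v ∈ A θ
    · simp [hA, hAB θ hA]
    · by_cases hB : v ∈ B θ
      · simp [hA, hB]
      · simp [hA, hB]
  calc (I.card : ℝ) * q = ∑ v ∈ I, q := by rw [Finset.sum_const, nsmul_eq_mul]
    _ ≤ ∑ v ∈ I, (mg w B v - mg w A v) := Finset.sum_le_sum fun v hv => hT v (hIT hv)
    _ = ∑ v ∈ I, ∑ θ, (if v ∈ B θ \ A θ then w θ else 0) :=
        Finset.sum_congr rfl fun v _ => h1 v
    _ = ∑ θ, ∑ v ∈ I, (if v ∈ B θ \ A θ then w θ else 0) := Finset.sum_comm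
    _ = ∑ θ, w θ * (I ∩ (B θ \ A θ)).card := by
        refine Finset.sum_congr rfl fun θ _ => ?_
        rw [← Finset.sum_filter, Finset.sum_const, nsmul_eq_mul, mul_comm]
        congr 3
    _ ≤ ∑ θ, w θ * k := by
        refine Finset.sum_le_sum fun θ _ => mul_le_mul_of_nonneg_left ?_ (hw0 θ)
        refine le_trans ?_ (hk θ)
        exact_mod_cast le_al (G := G) Finset.inter_subset_right
          (indep_mono Finset.inter_subset_left hI)
    _ = k := by rw [← Finset.sum_mul, hw1, one_mul]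

/-- The separator theorem: every set S of vertices which lie in A with probability at most 1/2
is separated by one set T of independence number at most 31108 k from all vertices that always
lie in A. -/
theorem separator_theorem (hw0 : ∀ θ, 0 ≤ w θ) (hw1 : ∑ θ, w θ = 1) (hAB : ∀ θ, A θ ⊆ B θ)
    (hsep : ∀ θ u v, G.Adj u v → u ∈ A θ → v ∈ B θ) {k : ℝ} (hk1 : 1 ≤ k)
    (hk : ∀ θ, (al G (B θ \ A θ) : ℝ) ≤ k) :
    ∃ T U : Finset V, (al G T : ℝ) ≤ 31108 * k ∧
      (∀ v ∈ T, mg w A v < 1) ∧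
      (∀ v, mg w A v ≤ 1 / 2 → v ∈ U ∨ v ∈ T) ∧ (∀ v ∈ U, mg w A v < 1) ∧ Disjoint U T ∧
      (∀ u ∈ U, ∀ v, G.Adj u v → v ∈ U ∨ v ∈ T) := by
  classical
  obtain ⟨T, U, hT, hTb, hUL, hUH, hd, hc⟩ := band_theorem hw0 hw1 hAB hsep hk1 hk 4 (by norm_num)
    (3 / 4 : ℝ)
  set P : Finset V := Finset.univ.filter (fun v => 1 / 4 ≤ mg w B v - mg w A v) with hP
  have hPk : (al G P : ℝ) ≤ k / (1 / 4) := by
    refine heavy_le hw0 hw1 hAB hk (by norm_num) P fun v hv => ?_
    rw [hP, Finset.mem_filter] at hv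
    exact hv.2
  have hB1 : ∀ v, mg w B v ≤ 1 := fun v => pr_le_one hw0 hw1 _
  refine ⟨T ∪ P, U \ P, ?_, ?_, ?_, ?_, ?_, ?_⟩
  · have h1 : (al G (T ∪ P) : ℝ) ≤ al G T + al G P := by exact_mod_cast al_union_le T P
    push_cast at hT
    linarith
  · intro v hv
    rcases Finset.mem_union.mp hv with h | h
    · have := (hTb v h).1
      push_cast at this
      linarith
    · rw [hP, Finset.mem_filter] at h
      linarith [hB1 v, h.2]
  · intro v hv
    by_cases hvP : v ∈ P
    · exact Or.inr (Finset.mem_union_right _ hvP)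
    · left
      refine Finset.mem_sdiff.mpr ⟨hUL v ?_, hvP⟩
      rw [hP, Finset.mem_filter] at hvP
      push Not at hvP
      have := hvP (Finset.mem_univ _)
      linarith
  · intro v hv
    have := hUH v (Finset.mem_sdiff.mp hv).1
    push_cast at this
    linarith
  · rw [Finset.disjoint_left]
    intro v hv hv2
    obtain ⟨h1, h2⟩ := Finset.mem_sdiff.mp hv
    rcases Finset.mem_union.mp hv2 with h | h
    · exact (Finset.disjoint_left.mp hd) h1 h
    · exact h2 h
  · intro u hu v huv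
    obtain ⟨h1, _⟩ := Finset.mem_sdiff.mp hu
    by_cases hvP : v ∈ P
    · exact Or.inr (Finset.mem_union_right _ hvP)
    · rcases hc u h1 v huv with h | h
      · exact Or.inl (Finset.mem_sdiff.mpr ⟨h, hvP⟩)
      · exact Or.inr (Finset.mem_union_left _ h)

end Step

end QStar27
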