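import Mathlib

/-!
Rounding of random separations: the separator theorem for the independence number.

For a finite probability space of separations (A, B) (A a subset of B, no edge from A to the
complement of B) of a finite graph such that the independence number of every B minus A is at
most k, and a set S each of whose vertices lies in A with probability at most 1/2, there is ONE
set T of independence number at most 31108 k which separates S from all the vertices that are
always in A.

The proof: band separators between level sets of the marginals, an exchange argument for the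
independence number, r independent samples and the Chebyshev inequality.
-/

open Finset

namespace QStar27

section Alpha

variable {V : Type*} [Fintype V] [DecidableEq V] (G : SimpleGraph V)

open Classical in
/-- The independence number of the subgraph induced by T. -/
noncomputable def al (T : Finset V) : ℕ :=
  (T.powerset.filter (fun I : Finset V => G.IsIndepSet (I : Set V))).sup Finset.card

variable {G}

theorem le_al {T I : Finset V} (hI : I ⊆ T) (hi : G.IsIndepSet (I : Set V)) :
    I.card ≤ al G T := by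
  classical
  unfold al
  exact Finset.le_sup (f := Finset.card) (by simp [hI, hi])

theorem al_le {T : Finset V} {n : ℕ}
    (h : ∀ I : Finset V, I ⊆ T → G.IsIndepSet (I : Set V) → I.card ≤ n) : al G T ≤ n := by
  classical
  unfold al
  refine Finset.sup_le ?_
  intro I hI
  simp only [Finset.mem_filter, Finset.mem_powerset] at hI
  exact h I hI.1 hI.2

theorem exists_al (T : Finset V) :
    ∃ I : Finset V, I ⊆ T ∧ G.IsIndepSet (I : Set V) ∧ I.card = al G T := by
  classical
  have hne : (T.powerset.filter (fun I : Finset V => G.IsIndepSet (I : Set V))).Nonempty := by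
    refine ⟨∅, ?_⟩
    simp [SimpleGraph.IsIndepSet]
  obtain ⟨I, hI, hc⟩ := Finset.exists_mem_eq_sup _ hne Finset.card
  simp only [Finset.mem_filter, Finset.mem_powerset] at hI
  exact ⟨I, hI.1, hI.2, by rw [al, hc]⟩

theorem indep_mono {I J : Finset V} (hJ : J ⊆ I) (hi : G.IsIndepSet (I : Set V)) :
    G.IsIndepSet (J : Set V) := by
  intro u hu v hv huv
  exact hi (hJ hu) (hJ hv) huv

theorem al_mono {S T : Finset V} (h : S ⊆ T) : al G S ≤ al G T :=
  al_le fun _ hI hi => le_al (hI.trans h) hi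

theorem al_union_le (S T : Finset V) : al G (S ∪ T) ≤ al G S + al G T := by
  classical
  refine al_le ?_
  intro I hI hi
  have h1 : (I ∩ S).card ≤ al G S := le_al Finset.inter_subset_right
    (indep_mono Finset.inter_subset_left hi)
  have h2 : (I ∩ T).card ≤ al G T := le_al Finset.inter_subset_right
    (indep_mono Finset.inter_subset_left hi)
  have h3 : I = (I ∩ S) ∪ (I ∩ T) := by
    rw [← Finset.inter_union_distrib_left]
    exact (Finset.inter_eq_left.mpr hI).symm
  calc I.card = ((I ∩ S) ∪ (I ∩ T)).card := by rw [← h3]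
    _ ≤ (I ∩ S).card + (I ∩ T).card := Finset.card_union_le _ _
    _ ≤ _ := by omega

theorem al_le_card (T : Finset V) : al G T ≤ Fintype.card V :=
  al_le fun _ _ _ => Finset.card_le_univ _

/-- The exchange step. -/
theorem al_exchange {T C E D I : Finset V} (hIT : I ⊆ T) (hi : G.IsIndepSet (I : Set V))
    (hcard : I.card = al G T) (hcov : ∀ v, v ∈ C ∨ v ∈ E ∨ v ∈ D)
    (hCE : ∀ u ∈ C, ∀ v ∈ E, ¬ G.Adj u v ∧ u ≠ v) :
    al G (T ∩ C) ≤ (I ∩ C).card + (I ∩ D).card := by
  classical
  refine al_le ?_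
  intro I' hI' hi'
  have hu : G.IsIndepSet ((I' ∪ (I ∩ E) : Finset V) : Set V) := by
    intro u hu v hv huv
    simp only [Finset.coe_union, Finset.coe_inter, Set.mem_union, Finset.mem_coe,
      Set.mem_inter_iff] at hu hv
    rcases hu with hu | hu <;> rcases hv with hv | hv
    · exact hi' hu hv huv
    · exact (hCE u (Finset.mem_inter.mp (hI' hu)).2 v hv.2).1
    · intro hadj
      exact (hCE v (Finset.mem_inter.mp (hI' hv)).2 u hu.2).1 hadj.symm
    · exact hi hu.1 hv.1 huv
  have hsub : I' ∪ (I ∩ E) ⊆ T := by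
    intro v hv
    rcases Finset.mem_union.mp hv with hv | hv
    · exact (Finset.mem_inter.mp (hI' hv)).1
    · exact hIT (Finset.mem_inter.mp hv).1
  have h1 := le_al hsub hu
  have hdisj : Disjoint I' (I ∩ E) := by
    rw [Finset.disjoint_left]
    intro v hv hv2
    exact (hCE v (Finset.mem_inter.mp (hI' hv)).2 v (Finset.mem_inter.mp hv2).2).2 rfl
  rw [Finset.card_union_of_disjoint hdisj, ← hcard] at h1
  have h2 : I.card ≤ (I ∩ C).card + (I ∩ E).card + (I ∩ D).card := by
    have : I ⊆ ((I ∩ C) ∪ (I ∩ E)) ∪ (I ∩ D) := by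
      intro v hv
      rcases hcov v with h | h | h
      · simp [hv, h]
      · simp [hv, h]
      · simp [hv, h]
    calc I.card ≤ (((I ∩ C) ∪ (I ∩ E)) ∪ (I ∩ D)).card := Finset.card_le_card this
      _ ≤ ((I ∩ C) ∪ (I ∩ E)).card + (I ∩ D).card := Finset.card_union_le _ _
      _ ≤ _ := by
        have := Finset.card_union_le (I ∩ C) (I ∩ E)
        omega
  omega

end Alpha

section Expectation

variable {Θ : Type*} [Fintype Θ] (w : Θ → ℝ)

/-- Expectation of a function of r independent samples. -/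
noncomputable def Ex : ℕ → (List Θ → ℝ) → ℝ
  | 0, F => F []
  | r + 1, F => ∑ θ, w θ * Ex r (fun l => F (θ :: l))

variable {w}

theorem Ex_add (r : ℕ) (F H : List Θ → ℝ) :
    Ex w r (fun l => F l + H l) = Ex w r F + Ex w r H := by
  induction r generalizing F H with
  | zero => simp [Ex]
  | succ r ih =>
    simp only [Ex]
    rw [← Finset.sum_add_distrib]
    refine Finset.sum_congr rfl fun θ _ => ?_
    rw [ih (fun l => F (θ :: l)) (fun l => H (θ :: l))]
    ring

theorem Ex_mul (r : ℕ) (c : ℝ) (F : List Θ → ℝ) :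
    Ex w r (fun l => c * F l) = c * Ex w r F := by
  induction r generalizing F with
  | zero => simp [Ex]
  | succ r ih =>
    simp only [Ex]
    rw [Finset.mul_sum]
    refine Finset.sum_congr rfl fun θ _ => ?_
    rw [ih (fun l => F (θ :: l))]
    ring

theorem Ex_const (hw1 : ∑ θ, w θ = 1) (r : ℕ) (c : ℝ) : Ex w r (fun _ => c) = c := by
  induction r with
  | zero => simp [Ex]
  | succ r ih =>
    simp only [Ex, ih]
    rw [← Finset.sum_mul, hw1, one_mul]

theorem Ex_mono (hw0 : ∀ θ, 0 ≤ w θ) (r : ℕ) {F H : List Θ → ℝ} (h : ∀ l, F l ≤ H l) :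
    Ex w r F ≤ Ex w r H := by
  induction r generalizing F H with
  | zero => simpa [Ex] using h []
  | succ r ih =>
    simp only [Ex]
    exact Finset.sum_le_sum fun θ _ =>
      mul_le_mul_of_nonneg_left (ih fun l => h (θ :: l)) (hw0 θ)

theorem Ex_sum {ι : Type*} (s : Finset ι) (r : ℕ) (F : ι → List Θ → ℝ) :
    Ex w r (fun l => ∑ i ∈ s, F i l) = ∑ i ∈ s, Ex w r (F i) := by
  classical
  induction s using Finset.induction_on with
  | empty =>
    simp only [Finset.sum_empty]
    have := Ex_mul (w := w) r 0 (fun _ => 0)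
    simpa using this
  | insert i s hi ih =>
    simp only [Finset.sum_insert hi]
    rw [Ex_add, ih]

/-- Some sample does at least as well as the average. -/
theorem exists_le_Ex (hw0 : ∀ θ, 0 ≤ w θ) (hw1 : ∑ θ, w θ = 1) (r : ℕ) (F : List Θ → ℝ) :
    ∃ l : List Θ, l.length = r ∧ F l ≤ Ex w r F := by
  induction r generalizing F with
  | zero => exact ⟨[], rfl, by simp [Ex]⟩
  | succ r ih =>
    simp only [Ex]
    have h1 : ∃ θ, Ex w r (fun l => F (θ :: l)) ≤ ∑ θ, w θ * Ex w r (fun l => F (θ :: l)) := by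
      by_contra hcon
      push Not at hcon
      set M := ∑ θ, w θ * Ex w r (fun l => F (θ :: l)) with hM
      have hex : ∃ θ, 0 < w θ := by
        by_contra hc
        push Not at hc
        have : ∑ θ, w θ ≤ 0 := Finset.sum_nonpos fun θ _ => hc θ
        linarith
      obtain ⟨θ₀, hθ₀⟩ := hex
      have h2 : ∑ θ, w θ * M < ∑ θ, w θ * Ex w r (fun l => F (θ :: l)) :=
        Finset.sum_lt_sum (fun θ _ => mul_le_mul_of_nonneg_left (hcon θ).le (hw0 θ))
          ⟨θ₀, Finset.mem_univ _, mul_lt_mul_of_pos_left (hcon θ₀) hθ₀⟩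
      rw [← Finset.sum_mul, hw1, one_mul] at h2
      exact lt_irrefl _ (hM ▸ h2)
    obtain ⟨θ, hθ⟩ := h1
    obtain ⟨l, hl, hF⟩ := ih (fun l => F (θ :: l))
    exact ⟨θ :: l, by simp [hl], hF.trans hθ⟩

/-- Number of samples with a property. -/
def cnt (P : Θ → Prop) [DecidablePred P] (l : List Θ) : ℕ := (l.filter (fun θ => P θ)).length

theorem cnt_nil (P : Θ → Prop) [DecidablePred P] : cnt P [] = 0 := rfl

theorem cnt_cons (P : Θ → Prop) [DecidablePred P] (θ : Θ) (l : List Θ) :
    (cnt P (θ :: l) : ℝ) = (if P θ then 1 else 0) + cnt P l := by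
  unfold cnt
  by_cases h : P θ
  · simp [h]; ring
  · simp [h]

/-- Probability of a property. -/
noncomputable def pr (w : Θ → ℝ) (P : Θ → Prop) [DecidablePred P] : ℝ :=
  ∑ θ, if P θ then w θ else 0

theorem pr_nonneg (hw0 : ∀ θ, 0 ≤ w θ) (P : Θ → Prop) [DecidablePred P] : 0 ≤ pr w P :=
  Finset.sum_nonneg fun θ _ => by
    split_ifs
    · exact hw0 θ
    · exact le_rfl

theorem pr_le_one (hw0 : ∀ θ, 0 ≤ w θ) (hw1 : ∑ θ, w θ = 1) (P : Θ → Prop) [DecidablePred P] :
    pr w P ≤ 1 := by
  rw [← hw1]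
  refine Finset.sum_le_sum fun θ _ => ?_
  split_ifs
  · exact le_rfl
  · exact hw0 θ

theorem pr_mono (hw0 : ∀ θ, 0 ≤ w θ) {P Q : Θ → Prop} [DecidablePred P] [DecidablePred Q]
    (h : ∀ θ, P θ → Q θ) : pr w P ≤ pr w Q := by
  refine Finset.sum_le_sum fun θ _ => ?_
  by_cases hP : P θ
  · simp [hP, h θ hP]
  · simp only [hP, if_false]
    split_ifs
    · exact hw0 θ
    · exact le_rfl

/-- First moment. -/
theorem Ex_cnt_sub (hw1 : ∑ θ, w θ = 1) (P : Θ → Prop) [DecidablePred P] (r : ℕ) :
    Ex w r (fun l => (cnt P l : ℝ) - r * pr w P) = 0 := by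
  induction r with
  | zero => simp [Ex, cnt_nil]
  | succ r ih =>
    simp only [Ex]
    have h1 : ∀ θ, Ex w r (fun l => (cnt P (θ :: l) : ℝ) - ((r + 1 : ℕ) : ℝ) * pr w P)
        = (if P θ then 1 else 0) - pr w P := by
      intro θ
      have : (fun l => (cnt P (θ :: l) : ℝ) - ((r + 1 : ℕ) : ℝ) * pr w P)
          = fun l => ((cnt P l : ℝ) - r * pr w P) + ((if P θ then 1 else 0) - pr w P) := by
        funext l
        rw [cnt_cons]
        push_cast
        ring
      rw [this, Ex_add, ih, Ex_const hw1]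
      ring
    simp only [h1]
    have h2 : ∑ θ, w θ * ((if P θ then (1 : ℝ) else 0) - pr w P)
        = (∑ θ, if P θ then w θ else 0) - (∑ θ, w θ) * pr w P := by
      rw [Finset.sum_mul, ← Finset.sum_sub_distrib]
      refine Finset.sum_congr rfl fun θ _ => ?_
      split_ifs <;> ring
    rw [h2, hw1]
    simp [pr]

/-- Second moment. -/
theorem Ex_cnt_sq (hw1 : ∑ θ, w θ = 1) (P : Θ → Prop) [DecidablePred P] (r : ℕ) :
    Ex w r (fun l => ((cnt P l : ℝ) - r * pr w P) ^ 2) = r * (pr w P * (1 - pr w P)) := by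
  induction r with
  | zero => simp [Ex, cnt_nil]
  | succ r ih =>
    simp only [Ex]
    have h1 : ∀ θ, Ex w r (fun l => ((cnt P (θ :: l) : ℝ) - ((r + 1 : ℕ) : ℝ) * pr w P) ^ 2)
        = r * (pr w P * (1 - pr w P)) + ((if P θ then 1 else 0) - pr w P) ^ 2 := by
      intro θ
      have : (fun l => ((cnt P (θ :: l) : ℝ) - ((r + 1 : ℕ) : ℝ) * pr w P) ^ 2)
          = fun l => (((cnt P l : ℝ) - r * pr w P) ^ 2
              + (2 * ((if P θ then 1 else 0) - pr w P)) * ((cnt P l : ℝ) - r * pr w P))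
              + ((if P θ then 1 else 0) - pr w P) ^ 2 := by
        funext l
        rw [cnt_cons]
        push_cast
        ring
      rw [this, Ex_add, Ex_add, Ex_mul, Ex_cnt_sub hw1, ih, Ex_const hw1]
      ring
    simp only [h1]
    have h2 : ∑ θ, w θ * ((r : ℝ) * (pr w P * (1 - pr w P))
          + ((if P θ then (1 : ℝ) else 0) - pr w P) ^ 2)
        = (∑ θ, w θ) * ((r : ℝ) * (pr w P * (1 - pr w P)) + pr w P ^ 2)
          + (∑ θ, if P θ then w θ else 0) * (1 - 2 * pr w P) := by
      rw [Finset.sum_mul, Finset.sum_mul, ← Finset.sum_add_distrib]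
      refine Finset.sum_congr rfl fun θ _ => ?_
      split_ifs <;> ring
    rw [h2, hw1]
    have h3 : (∑ θ, if P θ then w θ else 0) = pr w P := rfl
    rw [h3]
    push_cast
    ring

theorem Ex_cnt_sq_le (hw1 : ∑ θ, w θ = 1) (P : Θ → Prop) [DecidablePred P] (r : ℕ) :
    Ex w r (fun l => ((cnt P l : ℝ) - r * pr w P) ^ 2) ≤ r / 4 := by
  rw [Ex_cnt_sq hw1]
  have : pr w P * (1 - pr w P) ≤ 1 / 4 := by nlinarith [sq_nonneg (pr w P - 1 / 2)]
  have hr : (0 : ℝ) ≤ r := Nat.cast_nonneg r
  nlinarith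

open Classical in
/-- Chebyshev, upper tail. -/
theorem cheb_upper (hw0 : ∀ θ, 0 ≤ w θ) (hw1 : ∑ θ, w θ = 1) (P : Θ → Prop) [DecidablePred P]
    (r : ℕ) (μ s : ℝ) (hs : 0 < s) (h : r * pr w P + s ≤ μ) :
    Ex w r (fun l => if μ ≤ (cnt P l : ℝ) then (1 : ℝ) else 0) ≤ r / (4 * s ^ 2) := by
  have h1 : Ex w r (fun l => if μ ≤ (cnt P l : ℝ) then (1 : ℝ) else 0)
      ≤ Ex w r (fun l => (1 / s ^ 2) * ((cnt P l : ℝ) - r * pr w P) ^ 2) := by
    refine Ex_mono hw0 r fun l => ?_
    split_ifs with hl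
    · rw [one_div, ← div_eq_inv_mul, le_div_iff₀ (by positivity), one_mul]
      have : s ≤ (cnt P l : ℝ) - r * pr w P := by linarith
      exact pow_le_pow_left₀ hs.le this 2
    · positivity
  refine h1.trans ?_
  rw [Ex_mul]
  have h2 := Ex_cnt_sq_le hw1 P r
  calc 1 / s ^ 2 * Ex w r (fun l => ((cnt P l : ℝ) - r * pr w P) ^ 2)
      ≤ 1 / s ^ 2 * (r / 4) := mul_le_mul_of_nonneg_left h2 (by positivity)
    _ = r / (4 * s ^ 2) := by field_simp

open Classical in
/-- Chebyshev, lower tail. -/
theorem cheb_lower (hw0 : ∀ θ, 0 ≤ w θ) (hw1 : ∑ θ, w θ = 1) (P : Θ → Prop) [DecidablePred P]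
    (r : ℕ) (μ s : ℝ) (hs : 0 < s) (h : μ + s ≤ r * pr w P) :
    Ex w r (fun l => if (cnt P l : ℝ) < μ then (1 : ℝ) else 0) ≤ r / (4 * s ^ 2) := by
  have h1 : Ex w r (fun l => if (cnt P l : ℝ) < μ then (1 : ℝ) else 0)
      ≤ Ex w r (fun l => (1 / s ^ 2) * ((cnt P l : ℝ) - r * pr w P) ^ 2) := by
    refine Ex_mono hw0 r fun l => ?_
    split_ifs with hl
    · rw [one_div, ← div_eq_inv_mul, le_div_iff₀ (by positivity), one_mul]
      have : s ≤ r * pr w P - (cnt P l : ℝ) := by linarith
      have h3 := pow_le_pow_left₀ hs.le this 2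
      nlinarith
    · positivity
  refine h1.trans ?_
  rw [Ex_mul]
  have h2 := Ex_cnt_sq_le hw1 P r
  calc 1 / s ^ 2 * Ex w r (fun l => ((cnt P l : ℝ) - r * pr w P) ^ 2)
      ≤ 1 / s ^ 2 * (r / 4) := mul_le_mul_of_nonneg_left h2 (by positivity)
    _ = r / (4 * s ^ 2) := by field_simp

end Expectation

end QStar27
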